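import Pool.Agent.L5helper99.RL.Final

/-!
# Random linear systems in time `n ^ 2` times logarithmic factors

In the exact real arithmetic model (`+`, `-`, `×`, `÷`, comparisons, each of cost one, no other
operation and no constant besides `1`) random linear systems `A x = b` with Gaussian, Rademacher or
Bernoulli entries are solved to accuracy `ε` with `O (n ^ 2 log ^ 2 (n / ε))` operations.

Proof. (1) A product of two integer matrices with entries of absolute value at most `2 ^ u` and
`2 ^ v` costs `O (n ^ 2 (u + v + log n))` operations: the sum over `k` of the products of the packed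
`k`-th column of the first and the packed `k`-th row of the second matrix is one number, whose
`O (n ^ 2 (u + v + log n))` binary digits, and so the entries of the product, are found by
comparisons with powers of two. (2) If the Frobenius norm of `A` is at most `n ^ 2` and the least
singular value is at least `n ^ (-3)`, then `A ^ T A`, scaled and rounded to `O (log n)` binary
digits, has an approximate inverse which is a product of `O (log n)` factors `1 + Y_k`, where `Y_k`
is found from `Y_(k - 1)` by squaring and rounding. (3) Iterative refinement with this approximate
inverse gains one binary digit with `O (n ^ 2 log n)` operations. (4) The least singular value is at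
least `n ^ (-3)` with probability tending to one: for Gaussian entries by the distance of a row to
the span of the other rows, for the two discrete ensembles by splitting the unit sphere into
compressible vectors (nets) and incompressible vectors (the Littlewood-Offord inequality).
-/

set_option autoImplicit false

open Filter Topology MeasureTheory ProbabilityTheory
open scoped ENNReal

namespace Pool.Agent.Results.MP_9b7f10_lc.QuasiQuadraticTime

open Pool.Agent.L5helper99.RL

/-- **Random linear systems are solved in time `n ^ 2` up to logarithmic factors.** There are
measurable sets `E n` of `n × n` matrices, programs `P n` and a constant `C` such that a random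
matrix with i.i.d. entries which are standard Gaussian, or uniform on `{-1, 1}`, or uniform on
`{0, 1}`, lies in `E n` with probability tending to one, and for every matrix `A` in `E n`, every
`b` and every `0 < ε < 1` the program `P n`, started with the input `A, b, ε`, halts after at most
`C n ^ 2 log ^ 2 (n / ε)` steps with a vector `x` such that `‖A x - b‖ ≤ ε ‖b‖`; the coordinate
`x_j` is the content of the register with the number `n ^ 2 + n + 1 + j`. -/
theorem result : ∃ (E : (n : ℕ) → Set (Fin n → Fin n → ℝ)) (P : ℕ → List Instr) (C : ℝ),
    (∀ n, MeasurableSet (E n)) ∧
    Tendsto (fun n => law (gaussianReal 0 1) n (E n)) atTop (𝓝 1) ∧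
    Tendsto (fun n => law ((1 / 2 : ℝ≥0∞) • Measure.dirac (-1) +
      (1 / 2 : ℝ≥0∞) • Measure.dirac 1) n (E n)) atTop (𝓝 1) ∧
    Tendsto (fun n => law ((1 / 2 : ℝ≥0∞) • Measure.dirac 0 +
      (1 / 2 : ℝ≥0∞) • Measure.dirac 1) n (E n)) atTop (𝓝 1) ∧
    ∀ (n : ℕ) (A : Fin n → Fin n → ℝ), A ∈ E n → ∀ (b : Fin n → ℝ) (ε : ℝ), 0 < ε → ε < 1 →
      ∃ (k : ℕ) (r : ℕ → ℝ), (step (P n))^[k] (0, input A b ε) = ((P n).length, r) ∧
        (k : ℝ) ≤ C * (n : ℝ) ^ 2 * Real.log (n / ε) ^ 2 ∧
        Real.sqrt (∑ i, (∑ j : Fin n, A i j * r (n * n + n + 1 + j) - b i) ^ 2) ≤
          ε * Real.sqrt (∑ i, b i ^ 2) :=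
  main

end Pool.Agent.Results.MP_9b7f10_lc.QuasiQuadraticTime
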